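import Pool.Agent.Run7.h96.IX.Stm

/-!
# Piece DUAL of project IX (MP_bc4c60_co)
-/

set_option autoImplicit false

open Finset Filter Topology

namespace Run7.h237.IX

open Run7.h96.IX

theorem t_DUAL : S_DUAL := by
  intro D L l γ v F h00 h01 hL hL0 hl hl1 hγ hv hv2 hvF hF
  set δ : ℝ := min (γ / 8) (1 / 2) with hδ
  set η : ℝ := min (γ / 8) (min (δ * (F - v) / 4) (v / 2)) with hη
  have hδ0 : 0 < δ := lt_min (by positivity) (by norm_num)
  have hδ1 : δ ≤ γ / 8 := min_le_left _ _
  have hδ2 : δ ≤ 1 / 2 := min_le_right _ _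
  have hFv : 0 < F - v := by linarith
  have hη0 : 0 < η := lt_min (by positivity) (lt_min (by positivity) (by positivity))
  have hη1 : η ≤ γ / 8 := min_le_left _ _
  have hη2 : η ≤ δ * (F - v) / 4 := le_trans (min_le_right _ _) (min_le_left _ _)
  have hη3 : η ≤ v / 2 := le_trans (min_le_right _ _) (min_le_right _ _)
  refine ⟨η, hη0, ?_⟩
  intro η' hη'
  by_contra hcon
  push Not at hcon
  let O : Set (ℝ × ℝ × ℝ) := {p | v - γ + η < p.1 ∧ p.2.1 < v - η ∧ |p.2.2 - l| < η'}
  have hOo : IsOpen O := by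
    have h1 : IsOpen {p : ℝ × ℝ × ℝ | v - γ + η < p.1} := isOpen_lt continuous_const continuous_fst
    have h2 : IsOpen {p : ℝ × ℝ × ℝ | p.2.1 < v - η} := isOpen_lt (by fun_prop) continuous_const
    have h3 : IsOpen {p : ℝ × ℝ × ℝ | |p.2.2 - l| < η'} := isOpen_lt (by fun_prop) continuous_const
    exact h1.inter (h2.inter h3)
  have hOc : Convex ℝ O := by
    intro p hp q hq a b ha hb hab
    obtain ⟨p1, p2, p3⟩ := hp
    obtain ⟨q1, q2, q3⟩ := hq
    rw [abs_lt] at p3 q3
    have e1 : (a • p + b • q).1 = a * p.1 + b * q.1 := rfl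
    have e2 : (a • p + b • q).2.1 = a * p.2.1 + b * q.2.1 := rfl
    have e3 : (a • p + b • q).2.2 = a * p.2.2 + b * q.2.2 := rfl
    have key : ∀ X x y : ℝ, X < x → X < y → X < a * x + b * y := by
      intro X x y hx hy
      have hX : X = a * X + b * X := by rw [← add_mul, hab, one_mul]
      rcases eq_or_lt_of_le ha with h0 | h0
      · have hb1 : b = 1 := by linarith
        rw [← h0, hb1]; linarith
      · nlinarith [mul_lt_mul_of_pos_left hx h0, mul_le_mul_of_nonneg_left hy.le hb]
    refine ⟨?_, ?_, ?_⟩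
    · rw [e1]; exact key _ _ _ p1 q1
    · rw [e2]
      have := key (-(v - η)) (-p.2.1) (-q.2.1) (by linarith) (by linarith)
      linarith
    · rw [e3, abs_lt]
      constructor
      · have := key (l - η') p.2.2 q.2.2 (by linarith [p3.1]) (by linarith [q3.1])
        linarith
      · have := key (-(l + η')) (-p.2.2) (-q.2.2) (by linarith [p3.2]) (by linarith [q3.2])
        linarith
  have hdis : Disjoint O (convexHull ℝ D) := by
    rw [Set.disjoint_left]
    intro p hp hpD
    exact absurd (hcon p hpD hp.1 hp.2.1) (not_le.2 hp.2.2)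
  obtain ⟨f, u, hfO, hfD⟩ := geometric_hahn_banach_open hOc hOo (convex_convexHull ℝ D) hdis
  set α : ℝ := f (1, 0, 0) with hα
  set β : ℝ := f (0, 1, 0) with hβ
  set κ : ℝ := f (0, 0, 1) with hκ
  have hf : ∀ x y z : ℝ, f (x, y, z) = x * α + y * β + z * κ := by
    intro x y z
    have e : ((x, y, z) : ℝ × ℝ × ℝ) = x • ((1, 0, 0) : ℝ × ℝ × ℝ) + y • ((0, 1, 0) : ℝ × ℝ × ℝ) +
        z • ((0, 0, 1) : ℝ × ℝ × ℝ) := by
      ext <;> simp
    rw [e, map_add, map_add, map_smul, map_smul, map_smul]
    simp only [smul_eq_mul, hα, hβ, hκ]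
  have hmem : ∀ t t' : ℝ, 0 < t → 0 < t' → (v - γ + η + t) * α + (v - η - t') * β + l * κ < u := by
    intro t t' ht ht'
    rw [← hf]
    apply hfO
    refine ⟨?_, ?_, ?_⟩
    · show v - γ + η < v - γ + η + t
      linarith
    · show v - η - t' < v - η
      linarith
    · show |l - l| < η'
      rw [sub_self, abs_zero]; exact hη'
  set W : ℝ := (v - γ + η) * α + (v - η) * β + l * κ with hW
  have hmem' : ∀ t t' : ℝ, 0 < t → 0 < t' → W + t * α - t' * β < u := by
    intro t t' ht ht'
    have := hmem t t' ht ht'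
    rw [hW]; linarith
  have hα0 : α ≤ 0 := by
    by_contra hpos
    push Not at hpos
    have h1 := hmem' ((|u - W| + |β| + 1) / α) 1 (by positivity) one_pos
    rw [div_mul_cancel₀ _ hpos.ne'] at h1
    have := le_abs_self (u - W)
    have := le_abs_self β
    linarith
  have hβ0 : 0 ≤ β := by
    by_contra hneg
    push Not at hneg
    have hpos : 0 < -β := by linarith
    have h1 := hmem' 1 ((|u - W| + |α| + 1) / (-β)) one_pos (by positivity)
    have e : (|u - W| + |α| + 1) / (-β) * β = -(|u - W| + |α| + 1) := by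
      have e0 : (|u - W| + |α| + 1) / (-β) * (-β) = |u - W| + |α| + 1 :=
        div_mul_cancel₀ _ hpos.ne'
      linarith
    rw [e] at h1
    have := le_abs_self (u - W)
    have := neg_abs_le α
    linarith
  have hWu : W ≤ u := by
    apply le_of_forall_pos_le_add
    intro ε hε
    have hd : 0 < β - α + 1 := by linarith
    have h1 := hmem' (ε / (β - α + 1)) (ε / (β - α + 1)) (by positivity) (by positivity)
    have h2 : ε / (β - α + 1) * (β - α) ≤ ε := by
      rw [div_mul_eq_mul_div, div_le_iff₀ hd]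
      nlinarith
    nlinarith
  have hD : ∀ d ∈ D, W ≤ d.1 * α + d.2.1 * β + d.2.2 * κ := by
    intro d hd
    have h1 := hfD d (subset_convexHull ℝ D hd)
    have h2 := hf d.1 d.2.1 d.2.2
    have h3 : f d = d.1 * α + d.2.1 * β + d.2.2 * κ := h2
    linarith
  have hB : 0 < v - η := by linarith
  rcases lt_or_eq_of_le hα0 with hneg | hzero
  · -- the main case
    have hp : 0 < -α := by linarith
    set s : ℝ := β / (-α) with hs
    set r : ℝ := -κ / (-α) with hr
    have hs0 : 0 ≤ s := div_nonneg hβ0 hp.le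
    have hβs : β = s * (-α) := (div_mul_cancel₀ β hp.ne').symm
    have hκr : κ = -r * (-α) := by
      have : r * (-α) = -κ := div_mul_cancel₀ _ hp.ne'
      linarith
    have hDs : ∀ d ∈ D, d.1 - s * d.2.1 + r * d.2.2 ≤ (v - γ + η) - s * (v - η) + r * l := by
      intro d hd
      have h1 := hD d hd
      rw [hW, hβs, hκr] at h1
      have h2 : (-α) * (d.1 - s * d.2.1 + r * d.2.2) ≤
          (-α) * ((v - γ + η) - s * (v - η) + r * l) := by nlinarith
      exact le_of_mul_le_mul_left h2 hp
    have hLs : L s r ≤ (v - γ + η) - s * (v - η) + r * l := by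
      apply le_of_forall_pos_le_add
      intro ε hε
      obtain ⟨d, hd, h1⟩ := hL s r ε hs0 hε
      linarith [hDs d hd]
    by_cases hsδ : s ≤ 1 - δ
    · have hs1 : s < 1 := by linarith
      have h1 := hF s r hs0 hs1
      have h2 : (1 - s) * (F - v) ≤ (1 + s) * η := by nlinarith
      have h3 : δ * (F - v) ≤ (1 - s) * (F - v) := mul_le_mul_of_nonneg_right (by linarith) hFv.le
      have h4 : (1 + s) * η ≤ 2 * η := mul_le_mul_of_nonneg_right (by linarith) hη0.le
      linarith
    · push Not at hsδ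
      obtain ⟨h1, h2⟩ := hL0 s r hs0
      have h3 : l * r ≤ L s r := by
        rcases le_or_gt 0 r with hr0 | hr0
        · nlinarith
        · nlinarith
      have h4 : 0 ≤ (1 - s) * v - γ + (1 + s) * η := by nlinarith
      rcases lt_or_ge s 1 with hs1 | hs1
      · have h5 : (1 - s) * v ≤ δ * 2 := by
          apply mul_le_mul (by linarith) hv2 hv.le hδ0.le
        have h6 : (1 + s) * η ≤ 2 * η := mul_le_mul_of_nonneg_right (by linarith) hη0.le
        linarith
      · have h7 : 1 * (v - η) ≤ s * (v - η) := mul_le_mul_of_nonneg_right hs1 hB.le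
        nlinarith
  · -- the degenerate case
    have h1 := hD _ h00
    have h2 := hD _ h01
    simp only [hW, hzero] at h1 h2
    have hBβ : 0 ≤ (v - η) * β := mul_nonneg hB.le hβ0
    have hκ1 : κ ≤ 0 := by
      by_contra hh
      push Not at hh
      nlinarith [mul_pos hl hh]
    have hκ2 : 0 ≤ κ := by
      by_contra hh
      push Not at hh
      nlinarith [mul_pos (sub_pos.2 hl1) (neg_pos.2 hh)]
    have hκ0 : κ = 0 := le_antisymm hκ1 hκ2
    have hββ : β = 0 := by
      rw [hκ0] at h1
      have h3 : (v - η) * β ≤ (v - η) * 0 := by linarith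
      exact le_antisymm (le_of_mul_le_mul_left h3 hB) hβ0
    have h4 := hmem 1 1 one_pos one_pos
    rw [hzero, hββ, hκ0] at h4
    have h5 := hfD _ (subset_convexHull ℝ D h00)
    rw [hf, hzero, hββ, hκ0] at h5
    linarith

end Run7.h237.IX
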